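import Pool.Agent.Helper23.SP.Basic

set_option autoImplicit false

/-!
# Project SP: the value of a sparse query on an instance (pieces H4, H5, H6)
-/

namespace Pool.Agent.Helper45.SP

open Finset
open Pool.Agent.Helper23.SP
open Pool.Agent.Helper22.ETModel Pool.Agent.Helper22.TSModel

variable {m n s K C : ℕ}

/-- SP-H4. -/
theorem val_inst (h : 3 * m ≤ n) (q : SparseQ n s K C) (v : E m → ℤ) :
    q.val (instOf h (fun e => sg e * v e)) = q.const + ∑ e, qcoef h q e * v e := by
  unfold SparseQ.val qcoef
  congr 1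
  have h1 : ∀ e : E m, (sg e * ∑ l, q.coef l * ((if enc h e = q.cell l then 1 else 0) +
      (if enc h e = (q.cell l).swap then 1 else 0))) * v e =
      ∑ l, q.coef l * ((sg e * v e) * ((if enc h e = q.cell l then 1 else 0) +
      (if enc h e = (q.cell l).swap then 1 else 0))) := by
    intro e
    rw [Finset.mul_sum, Finset.sum_mul]
    refine Finset.sum_congr rfl fun l _ => ?_
    ring
  rw [Finset.sum_congr rfl fun e _ => h1 e, Finset.sum_comm]
  refine Finset.sum_congr rfl fun l _ => ?_
  rw [← Finset.mul_sum]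
  rfl

/-- a cell is the code of at most one edge, in at most one orientation -/
lemma enc_uniq (h : 3 * m ≤ n) {e e' : E m} {c : Fin n × Fin n} (h1 : enc h e = c ∨ enc h e = c.swap)
    (h2 : enc h e' = c ∨ enc h e' = c.swap) : e = e' := by
  rcases h1 with h1 | h1 <;> rcases h2 with h2 | h2
  · exact enc_inj h (h1.trans h2.symm)
  · exfalso
    exact enc_swap h e' e (by rw [h1, h2])
  · exfalso
    exact enc_swap h e e' (by rw [h1, h2])
  · exact enc_inj h (h1.trans h2.symm)

/-- SP-H5. -/
theorem card_supp_qcoef (h : 3 * m ≤ n) (q : SparseQ n s K C) :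
    (supp (qcoef h q)).card ≤ s := by
  classical
  have key : ∀ e ∈ supp (qcoef h q), ∃ l : Fin s, enc h e = q.cell l ∨ enc h e = (q.cell l).swap := by
    intro e he
    by_contra hcon
    push Not at hcon
    rw [mem_supp] at he
    apply he
    unfold qcoef
    rw [Finset.sum_eq_zero, mul_zero]
    intro l _
    rw [if_neg (hcon l).1, if_neg (hcon l).2, add_zero, mul_zero]
  choose f hf using key
  have h1 : (supp (qcoef h q)).attach.card ≤ (univ : Finset (Fin s)).card := by
    apply Finset.card_le_card_of_injOn (fun e => f e.1 e.2) (fun e _ => by simp)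
    intro e _ e' _ hee
    have h2 := hf e.1 e.2
    have h3 := hf e'.1 e'.2
    have hee' : f e.1 e.2 = f e'.1 e'.2 := hee
    rw [← hee'] at h3
    exact Subtype.ext (enc_uniq h h2 h3)
  simpa using h1

lemma sum_ind_le (h : 3 * m ≤ n) (c : Fin n × Fin n) :
    ∑ e : E m, ((if enc h e = c then (1 : ℤ) else 0) + (if enc h e = c.swap then 1 else 0)) ≤ 1 := by
  classical
  by_cases hex : ∃ e0 : E m, enc h e0 = c ∨ enc h e0 = c.swap
  · obtain ⟨e0, he0⟩ := hex
    rw [Finset.sum_eq_single e0]
    · rcases he0 with h1 | h1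
      · have h2 : enc h e0 ≠ c.swap := by
          intro h2
          exact enc_swap h e0 e0 (by rw [h1] at h2 ⊢; exact h2)
        rw [if_pos h1, if_neg h2, add_zero]
      · have h2 : enc h e0 ≠ c := by
          intro h2
          exact enc_swap h e0 e0 (by rw [h2] at h1 ⊢; exact h1)
        rw [if_neg h2, if_pos h1, zero_add]
    · intro e _ hne
      have h1 : ¬ (enc h e = c ∨ enc h e = c.swap) := fun h1 => hne (enc_uniq h h1 he0)
      push Not at h1
      rw [if_neg h1.1, if_neg h1.2, add_zero]
    · intro h1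
      exact absurd (mem_univ e0) h1
  · push Not at hex
    rw [Finset.sum_eq_zero]
    · exact zero_le_one
    · intro e _
      rw [if_neg (hex e).1, if_neg (hex e).2, add_zero]

lemma abs_sg_le (e : E m) : |sg e| ≤ 1 := by
  unfold sg
  split_ifs <;> simp

/-- SP-H6. -/
theorem sum_qcoef (h : 3 * m ≤ n) (q : SparseQ n s K C) :
    ∑ e, |qcoef h q e| ≤ s * K := by
  have h1 : ∀ e : E m, |qcoef h q e| ≤ ∑ l, (K : ℤ) * ((if enc h e = q.cell l then 1 else 0) +
      (if enc h e = (q.cell l).swap then 1 else 0)) := by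
    intro e
    unfold qcoef
    rw [abs_mul]
    have h2 : |sg e| * |∑ l, q.coef l * ((if enc h e = q.cell l then 1 else 0) +
        (if enc h e = (q.cell l).swap then 1 else 0))| ≤ 1 * |∑ l, q.coef l *
        ((if enc h e = q.cell l then 1 else 0) + (if enc h e = (q.cell l).swap then 1 else 0))| :=
      mul_le_mul_of_nonneg_right (abs_sg_le e) (abs_nonneg _)
    rw [one_mul] at h2
    refine h2.trans ((Finset.abs_sum_le_sum_abs _ _).trans (Finset.sum_le_sum fun l _ => ?_))
    rw [abs_mul]
    have h3 : (0 : ℤ) ≤ (if enc h e = q.cell l then 1 else 0) +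
        (if enc h e = (q.cell l).swap then 1 else 0) := by
      split_ifs <;> norm_num
    rw [abs_of_nonneg h3]
    exact mul_le_mul_of_nonneg_right (q.coef_le l) h3
  refine (Finset.sum_le_sum fun e _ => h1 e).trans ?_
  rw [Finset.sum_comm]
  have h2 : ∀ l : Fin s, ∑ e : E m, (K : ℤ) * ((if enc h e = q.cell l then 1 else 0) +
      (if enc h e = (q.cell l).swap then 1 else 0)) ≤ K := by
    intro l
    rw [← Finset.mul_sum]
    have := mul_le_mul_of_nonneg_left (sum_ind_le h (q.cell l)) (Int.natCast_nonneg K)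
    rwa [mul_one] at this
  refine (Finset.sum_le_sum fun l _ => h2 l).trans ?_
  simp

end Pool.Agent.Helper45.SP
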